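import Pool.Agent.Helper47.EX.Final

/-!
# The exact exponent of the number of collisions of the binary and the ternary sum of digits

Let `η` be the minimum over `x > 0` of
`log (1 + x) / log 2 + log (1 + 1/x + 1/x²) / log 3 - 1` (so `η = 0.9815...`).
For every integer `k` and all real `0 ≤ a < b` the number of integers `n` in `[aN, bN)` with
`s_2(n) - s_3(n) = k` is `N ^ (η + o(1))`. Consequently `C(N) ∼ c N ^ η'` is only possible with
`η' = η`.
-/

namespace Pool.Agent.Results.MP_2b4692_nt.ExactExponent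

open Filter Topology

theorem card_mono {A B : Finset ℕ} (h : A ⊆ B) (p : ℕ → Prop) [DecidablePred p] :
    (((A.filter p).card : ℕ) : ℝ) ≤ (((B.filter p).card : ℕ) : ℝ) :=
  Nat.cast_le.2 (Finset.card_le_card (Finset.filter_subset_filter _ h))

theorem result :
    ∃ η : ℝ,
      IsLeast {y : ℝ | ∃ x : ℝ, 0 < x ∧
        y = Real.log (1 + x) / Real.log 2 + Real.log (1 + x⁻¹ + x⁻¹ ^ 2) / Real.log 3 - 1} η ∧
      0.9815 < η ∧ η < 0.9816 ∧
      (∀ (k : ℤ) (a b : ℝ), 0 ≤ a → a < b → Tendsto (fun N : ℕ =>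
        Real.log ((((Finset.Ico ⌈a * N⌉₊ ⌈b * N⌉₊).filter
          (fun n => ((Nat.digits 2 n).sum : ℤ) - ((Nat.digits 3 n).sum : ℤ) = k)).card : ℕ) : ℝ)
            / Real.log N) atTop (𝓝 η)) ∧
      (∀ c η' : ℝ, Asymptotics.IsEquivalent atTop
        (fun N : ℕ => ((((Finset.range N).filter
          (fun n => (Nat.digits 2 n).sum = (Nat.digits 3 n).sum)).card : ℕ) : ℝ))
        (fun N : ℕ => c * (N : ℝ) ^ η') → 0 < c ∧ η' = η) := by
  obtain ⟨η, hη, h981, h982, hmain⟩ := Pool.Agent.Helper47.EX.main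
  have hlowW : ∀ (k : ℤ) (δ : ℝ), 0 < δ → ∀ ε : ℝ, 0 < ε → ∀ᶠ N : ℕ in atTop,
      (N : ℝ) ^ (η - ε) ≤ ((((Finset.Ico N ⌈(1 + δ) * N⌉₊).filter
          (fun n => ((Nat.digits 2 n).sum : ℤ) - ((Nat.digits 3 n).sum : ℤ) = k)).card : ℕ) : ℝ) :=
    fun k δ hδ ε hε => (hmain k δ hδ ε hε).mono fun N h => h.1
  have hupR : ∀ (k : ℤ), ∀ ε : ℝ, 0 < ε → ∀ᶠ N : ℕ in atTop,
      ((((Finset.range N).filter
          (fun n => ((Nat.digits 2 n).sum : ℤ) - ((Nat.digits 3 n).sum : ℤ) = k)).card : ℕ) : ℝ)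
        ≤ (N : ℝ) ^ (η + ε) :=
    fun k ε hε => (hmain k 1 one_pos ε hε).mono fun N h => h.2
  -- upper bound in `[aN, bN)`
  have hup : ∀ (k : ℤ) (a b : ℝ), 0 < b → ∀ ε : ℝ, 0 < ε → ∀ᶠ N : ℕ in atTop,
      ((((Finset.Ico ⌈a * N⌉₊ ⌈b * N⌉₊).filter
          (fun n => ((Nat.digits 2 n).sum : ℤ) - ((Nat.digits 3 n).sum : ℤ) = k)).card : ℕ) : ℝ)
        ≤ (N : ℝ) ^ (η + ε) := by
    intro k a b hb ε hε
    have hM : Tendsto (fun N : ℕ => ⌈b * (N : ℝ)⌉₊) atTop atTop := by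
      apply tendsto_nat_ceil_atTop.comp
      exact Tendsto.const_mul_atTop hb tendsto_natCast_atTop_atTop
    have h1 := hM.eventually (hupR k (ε / 2) (by positivity))
    have h2 := Pool.Agent.Helper47.EX.const_mul_rpow_le ((b + 1) ^ (η + ε / 2)) (η + ε / 2)
      (ε / 2) (by positivity)
    filter_upwards [h1, h2, eventually_ge_atTop 1] with N hN1 hN2 hN3
    have hN0 : (1 : ℝ) ≤ N := by exact_mod_cast hN3
    have hle : (⌈b * (N : ℝ)⌉₊ : ℝ) ≤ (b + 1) * N := by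
      have := (Nat.ceil_lt_add_one (a := b * (N : ℝ)) (by positivity)).le
      linarith
    have hexp : 0 ≤ η + ε / 2 := by linarith
    have hsub : Finset.Ico ⌈a * (N : ℝ)⌉₊ ⌈b * (N : ℝ)⌉₊ ⊆ Finset.range ⌈b * (N : ℝ)⌉₊ := by
      intro i hi
      rw [Finset.mem_Ico] at hi
      exact Finset.mem_range.2 hi.2
    refine le_trans (card_mono hsub _) (le_trans hN1 ?_)
    calc (⌈b * (N : ℝ)⌉₊ : ℝ) ^ (η + ε / 2)
        ≤ ((b + 1) * N) ^ (η + ε / 2) := Real.rpow_le_rpow (by positivity) hle hexp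
      _ = (b + 1) ^ (η + ε / 2) * (N : ℝ) ^ (η + ε / 2) :=
          Real.mul_rpow (by positivity) (by positivity)
      _ ≤ (N : ℝ) ^ (η + ε / 2 + ε / 2) := hN2
      _ = (N : ℝ) ^ (η + ε) := by ring_nf
  -- lower bound in `[aN, bN)`, first for `a > 0`
  have hlow' : ∀ (k : ℤ) (a b : ℝ), 0 < a → a < b → ∀ ε : ℝ, 0 < ε → ∀ᶠ N : ℕ in atTop,
      (N : ℝ) ^ (η - ε) ≤ ((((Finset.Ico ⌈a * N⌉₊ ⌈b * N⌉₊).filter
          (fun n => ((Nat.digits 2 n).sum : ℤ) - ((Nat.digits 3 n).sum : ℤ) = k)).card : ℕ) : ℝ) := by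
    intro k a b ha hab ε hε
    set δ : ℝ := (b - a) / (2 * a) with hδ
    have hba : 0 < b - a := by linarith
    have hδ0 : 0 < δ := by rw [hδ]; positivity
    have hM : Tendsto (fun N : ℕ => ⌈a * (N : ℝ)⌉₊) atTop atTop := by
      apply tendsto_nat_ceil_atTop.comp
      exact Tendsto.const_mul_atTop ha tendsto_natCast_atTop_atTop
    set ε' : ℝ := min (ε / 2) (1 / 2) with hε'
    have hε'0 : 0 < ε' := by rw [hε']; positivity
    have hε'1 : ε' ≤ ε / 2 := min_le_left _ _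
    have hε'2 : ε' ≤ 1 / 2 := min_le_right _ _
    have h1 := hM.eventually (hlowW k δ hδ0 ε' hε'0)
    have h2 := Pool.Agent.Helper47.EX.const_mul_rpow_le ((a⁻¹) ^ (η - ε')) (η - ε)
      (ε - ε') (by linarith)
    have h3 : ∀ᶠ N : ℕ in atTop, (1 + δ) / ((b - a) / 2) ≤ (N : ℝ) :=
      tendsto_natCast_atTop_atTop.eventually_ge_atTop _
    filter_upwards [h1, h2, h3, eventually_ge_atTop 1] with N hN1 hN2 hN3 hN4
    have hN0 : (1 : ℝ) ≤ N := by exact_mod_cast hN4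
    have hsub : Finset.Ico ⌈a * (N : ℝ)⌉₊ ⌈(1 + δ) * (⌈a * (N : ℝ)⌉₊ : ℝ)⌉₊ ⊆
        Finset.Ico ⌈a * (N : ℝ)⌉₊ ⌈b * (N : ℝ)⌉₊ := by
      apply Finset.Ico_subset_Ico_right
      apply Nat.ceil_mono
      have h4 := (Nat.ceil_lt_add_one (a := a * (N : ℝ)) (by positivity)).le
      rw [div_le_iff₀ (by positivity)] at hN3
      calc (1 + δ) * (⌈a * (N : ℝ)⌉₊ : ℝ) ≤ (1 + δ) * (a * N + 1) := by gcongr
        _ = (a + (b - a) / 2) * N + (1 + δ) := by
            rw [hδ]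
            field_simp
        _ ≤ (a + (b - a) / 2) * N + N * ((b - a) / 2) := by linarith
        _ = b * N := by ring
    refine le_trans ?_ (card_mono hsub _)
    refine le_trans ?_ hN1
    have hexp : 0 ≤ η - ε' := by linarith
    calc (N : ℝ) ^ (η - ε) = (a⁻¹) ^ (η - ε') * (N : ℝ) ^ (η - ε) * a ^ (η - ε') := by
          rw [Real.inv_rpow ha.le]
          have : 0 < a ^ (η - ε') := by positivity
          field_simp
      _ ≤ (N : ℝ) ^ (η - ε + (ε - ε')) * a ^ (η - ε') := by gcongr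
      _ = (a * N) ^ (η - ε') := by
          rw [Real.mul_rpow ha.le (by positivity), mul_comm]
          ring_nf
      _ ≤ (⌈a * (N : ℝ)⌉₊ : ℝ) ^ (η - ε') :=
          Real.rpow_le_rpow (by positivity) (Nat.le_ceil _) hexp
  have hlow : ∀ (k : ℤ) (a b : ℝ), 0 ≤ a → a < b → ∀ ε : ℝ, 0 < ε → ∀ᶠ N : ℕ in atTop,
      (N : ℝ) ^ (η - ε) ≤ ((((Finset.Ico ⌈a * N⌉₊ ⌈b * N⌉₊).filter
          (fun n => ((Nat.digits 2 n).sum : ℤ) - ((Nat.digits 3 n).sum : ℤ) = k)).card : ℕ) : ℝ) := by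
    intro k a b ha hab ε hε
    filter_upwards [hlow' k ((a + b) / 2) b (by linarith) (by linarith) ε hε] with N hN
    refine le_trans hN (card_mono ?_ _)
    apply Finset.Ico_subset_Ico_left
    apply Nat.ceil_mono
    have : (0 : ℝ) ≤ N := Nat.cast_nonneg _
    nlinarith
  refine ⟨η, hη, h981, h982, ?_, ?_⟩
  · intro k a b ha hab
    exact Pool.Agent.Helper47.EX.tendsto_log_div _ η (hlow k a b ha hab)
      (hup k a b (by linarith))
  · intro c η' h
    have heq : ∀ N : ℕ, (Finset.range N).filter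
        (fun n => (Nat.digits 2 n).sum = (Nat.digits 3 n).sum) =
          (Finset.Ico ⌈(0 : ℝ) * N⌉₊ ⌈(1 : ℝ) * N⌉₊).filter
          (fun n => ((Nat.digits 2 n).sum : ℤ) - ((Nat.digits 3 n).sum : ℤ) = 0) := by
      intro N
      rw [zero_mul, Nat.ceil_zero, one_mul, Nat.ceil_natCast, ← Finset.range_eq_Ico]
      apply Finset.filter_congr
      intro n _
      rw [sub_eq_zero]
      exact_mod_cast Iff.rfl
    simp only [heq] at h
    exact Pool.Agent.Helper47.EX.eq_of_isEquivalent _ (fun N => Nat.cast_nonneg _) η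
      (hlow 0 0 1 le_rfl one_pos) (hup 0 0 1 one_pos) c η' h

end Pool.Agent.Results.MP_2b4692_nt.ExactExponent
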