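import Pool.Agent.Helper47.EX.Final
import Pool.Agent.Helper78.PS.NoSave

/-!
# Collisions of the binary and the ternary sum of digits concentrate on few binary cells;
# no asymptotic formula with a power saving

Fix an integer `k` and consider the integers `n ≥ 0` with `s_2(n) - s_3(n) = k`.
(1) Those below `2 ^ (G + J)` are, up to a proportion of at most `2 ^ (-J / 1000)`, contained in at most
`2 ^ ((1 - 1 / 2000) J)` of the `2 ^ J` cells `[2 ^ G Y, 2 ^ G (Y + 1))`, for all large `J` and all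
`G ≤ A J`.
(2) Their counting function is not of the form `c N ^ η' + O(N ^ (η' - δ))` with `c ≠ 0` and `δ > 0`.
-/

namespace Pool.Agent.Results.MP_2b4692_nt.NoPowerSaving

open Filter Topology

theorem result :
    (∀ (k : ℤ) (A : ℝ), 0 ≤ A → ∀ᶠ J : ℕ in atTop, ∀ G : ℕ, (G : ℝ) ≤ A * J →
      ∃ S : Finset ℕ, S ⊆ Finset.range (2 ^ J) ∧
        (S.card : ℝ) ≤ (2 : ℝ) ^ ((1 - 1 / 2000 : ℝ) * J) ∧
        ((((Finset.range (2 ^ (G + J))).filter (fun n =>
            ((Nat.digits 2 n).sum : ℤ) - ((Nat.digits 3 n).sum : ℤ) = k ∧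
              n / 2 ^ G ∉ S)).card : ℕ) : ℝ) ≤
          (2 : ℝ) ^ (-(1 / 1000 : ℝ) * J) *
            ((((Finset.range (2 ^ (G + J))).filter (fun n =>
              ((Nat.digits 2 n).sum : ℤ) - ((Nat.digits 3 n).sum : ℤ) = k)).card : ℕ) : ℝ)) ∧
    (∀ (k : ℤ) (c η' δ : ℝ), c ≠ 0 → 0 < δ →
      ¬ ((fun N : ℕ => ((((Finset.range N).filter (fun n =>
            ((Nat.digits 2 n).sum : ℤ) - ((Nat.digits 3 n).sum : ℤ) = k)).card : ℕ) : ℝ) -
              c * (N : ℝ) ^ η') =O[atTop] (fun N : ℕ => (N : ℝ) ^ (η' - δ)))) := by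
  obtain ⟨x0, hx0, hx1, hmin, h981, h982, hder⟩ := Pool.Agent.Helper47.EX.Inputs.H_min
  obtain ⟨hn1, hn2⟩ := Pool.Agent.Helper47.EX.H_min_num x0 hx0 hx1 hmin
  have part1 : ∀ (k : ℤ) (A : ℝ), 0 ≤ A → ∀ᶠ J : ℕ in atTop, ∀ G : ℕ, (G : ℝ) ≤ A * J →
      ∃ S : Finset ℕ, S ⊆ Finset.range (2 ^ J) ∧
        (S.card : ℝ) ≤ (2 : ℝ) ^ ((1 - 1 / 2000 : ℝ) * J) ∧
        ((((Finset.range (2 ^ (G + J))).filter (fun n => Pool.Agent.Helper36.DC.d n = k ∧
              n / 2 ^ G ∉ S)).card : ℕ) : ℝ) ≤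
          (2 : ℝ) ^ (-(1 / 1000 : ℝ) * J) *
            ((((Finset.range (2 ^ (G + J))).filter (fun n =>
              Pool.Agent.Helper36.DC.d n = k)).card : ℕ) : ℝ) := by
    intro k A hA
    filter_upwards [Pool.Agent.Helper78.PS.conc x0 hx0 hx1 hmin hn1 hn2 hder k A hA,
      Pool.Agent.Helper78.PS.bad_card] with J hJ1 hJ2
    intro G hG
    refine ⟨(Finset.range (2 ^ J)).filter (fun Y => ¬ Pool.Agent.Helper78.PS.Good G J Y),
      Finset.filter_subset _ _, hJ2 G, ?_⟩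
    refine le_trans ?_ (hJ1 G hG)
    apply Nat.cast_le.2
    apply Finset.card_le_card
    intro n hn
    rw [Finset.mem_filter] at hn ⊢
    refine ⟨hn.1, hn.2.1, ?_⟩
    by_contra hbad
    apply hn.2.2
    rw [Finset.mem_filter]
    refine ⟨?_, hbad⟩
    rw [Finset.mem_range, Nat.div_lt_iff_lt_mul (by positivity), ← pow_add, add_comm]
    exact Finset.mem_range.1 hn.1
  refine ⟨part1, ?_⟩
  intro k c η' δ hc hδ hO
  obtain ⟨η, _, hη1, hη2, hmain⟩ := Pool.Agent.Helper47.EX.main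
  have hlow : ∀ ε : ℝ, 0 < ε → ∀ᶠ N : ℕ in atTop,
      (N : ℝ) ^ (η - ε) ≤ Pool.Agent.Helper78.PS.ff k N := by
    intro ε hε
    set ε' : ℝ := min (ε / 2) (1 / 2) with hε'
    have hε'0 : 0 < ε' := by rw [hε']; positivity
    have hε'1 : ε' ≤ ε / 2 := min_le_left _ _
    have hε'2 : ε' ≤ 1 / 2 := min_le_right _ _
    have h1 := hmain k 1 one_pos ε' hε'0
    have hM : Tendsto (fun N : ℕ => N / 2) atTop atTop :=
      Nat.tendsto_div_const_atTop (by norm_num)
    have h2 := hM.eventually h1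
    have h3 := Pool.Agent.Helper47.EX.const_mul_rpow_le ((3 : ℝ) ^ (η - ε')) (η - ε)
      (ε - ε') (by linarith)
    filter_upwards [h2, h3, eventually_ge_atTop 2] with N hN2 hN3 hN4
    have hexp : 0 ≤ η - ε' := by linarith
    have h6 : (N : ℝ) / 3 ≤ ((N / 2 : ℕ) : ℝ) := by
      rw [div_le_iff₀ (by norm_num)]
      have : N ≤ N / 2 * 3 := by omega
      exact_mod_cast this
    have h7 : ⌈(1 + 1 : ℝ) * ((N / 2 : ℕ) : ℝ)⌉₊ ≤ N := by
      rw [Nat.ceil_le]
      have : 2 * (N / 2) ≤ N := by omega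
      have h8 : (2 : ℝ) * ((N / 2 : ℕ) : ℝ) ≤ N := by exact_mod_cast this
      linarith
    have h9 : (N : ℝ) ^ (η - ε) ≤ ((N / 2 : ℕ) : ℝ) ^ (η - ε') := by
      calc (N : ℝ) ^ (η - ε) = (3 : ℝ) ^ (η - ε') * (N : ℝ) ^ (η - ε) / (3 : ℝ) ^ (η - ε') := by
            have : 0 < (3 : ℝ) ^ (η - ε') := by positivity
            field_simp
        _ ≤ (N : ℝ) ^ (η - ε + (ε - ε')) / (3 : ℝ) ^ (η - ε') := by gcongr
        _ = ((N : ℝ) / 3) ^ (η - ε') := by
            rw [Real.div_rpow (by positivity) (by norm_num)]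
            ring_nf
        _ ≤ ((N / 2 : ℕ) : ℝ) ^ (η - ε') := Real.rpow_le_rpow (by positivity) h6 hexp
    refine h9.trans (hN2.1.trans ?_)
    unfold Pool.Agent.Helper78.PS.ff
    apply Nat.cast_le.2
    apply Finset.card_le_card
    apply Finset.filter_subset_filter
    intro i hi
    rw [Finset.mem_Ico] at hi
    exact Finset.mem_range.2 (lt_of_lt_of_le hi.2 h7)
  have hup : ∀ ε : ℝ, 0 < ε → ∀ᶠ N : ℕ in atTop,
      Pool.Agent.Helper78.PS.ff k N ≤ (N : ℝ) ^ (η + ε) :=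
    fun ε hε => (hmain k 1 one_pos ε hε).mono fun N h => h.2
  have hO' : (fun N : ℕ => Pool.Agent.Helper78.PS.ff k N - c * (N : ℝ) ^ η') =O[atTop]
      (fun N : ℕ => (N : ℝ) ^ (η' - δ)) := hO
  have hlit : (fun N : ℕ => (N : ℝ) ^ (η' - δ)) =o[atTop] (fun N : ℕ => (N : ℝ) ^ η') := by
    have hpos : ∀ᶠ N : ℕ in atTop, (0 : ℝ) < N := by
      filter_upwards [eventually_ge_atTop 1] with N hN
      exact_mod_cast (by omega : 0 < N)
    rw [Asymptotics.isLittleO_iff_tendsto']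
    · have h1 : Tendsto (fun N : ℕ => (N : ℝ) ^ (-δ)) atTop (𝓝 0) :=
        (tendsto_rpow_neg_atTop hδ).comp tendsto_natCast_atTop_atTop
      refine h1.congr' ?_
      filter_upwards [hpos] with N hN
      rw [← Real.rpow_sub hN]
      ring_nf
    · filter_upwards [hpos] with N hN h0
      exact absurd h0 (Real.rpow_pos_of_pos hN _).ne'
  have heq : Asymptotics.IsEquivalent atTop (Pool.Agent.Helper78.PS.ff k)
      (fun N : ℕ => c * (N : ℝ) ^ η') := by
    have h1 := hO'.trans_isLittleO hlit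
    exact h1.const_mul_right hc
  obtain ⟨hcpos, rfl⟩ := Pool.Agent.Helper47.EX.eq_of_isEquivalent _
    (Pool.Agent.Helper78.PS.ff_nonneg k) η hlow hup c η' heq
  obtain ⟨M, hM0, hM⟩ := hO'.exists_nonneg
  have hM' := hM.bound
  set δ' : ℝ := min δ (1 / 2) with hδ'
  have hδ'0 : 0 < δ' := by rw [hδ']; positivity
  have hδ'1 : δ' ≤ δ := min_le_left _ _
  have hδ'2 : δ' ≤ 1 / 2 := min_le_right _ _
  refine Pool.Agent.Helper78.PS.no_power_saving_aux k c η' δ' M hcpos (by linarith)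
    (by linarith) hδ'0 (by linarith) hM0 ?_ ?_
  · filter_upwards [hM', eventually_ge_atTop 1] with N hN hN1
    have hN0 : (1 : ℝ) ≤ N := by exact_mod_cast hN1
    rw [Real.norm_eq_abs, Real.norm_eq_abs, abs_of_nonneg (by positivity : 0 ≤ (N : ℝ) ^ (η' - δ))]
      at hN
    refine hN.trans (mul_le_mul_of_nonneg_left ?_ hM0)
    exact Real.rpow_le_rpow_of_exponent_le hN0 (by linarith)
  · intro A hA
    filter_upwards [part1 k A hA] with J hJ
    intro G hG
    obtain ⟨S, _, hS2, hS3⟩ := hJ G hG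
    exact ⟨S, hS2, hS3⟩

end Pool.Agent.Results.MP_2b4692_nt.NoPowerSaving
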