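import Pool.Agent.Helper97.SI.Low
import Pool.Agent.Helper47.EX.HNum

/-!
# Collisions of the binary and the ternary sum of digits in short intervals

Let `η` be the minimum over `x > 0` of
`log (1 + x) / log 2 + log (1 + 1/x + 1/x²) / log 3 - 1` (so `η = 0.9815...`).
For `θ < 1` close to `1` the number of `n` in `[N, N + N ^ θ)` with `s_2(n) - s_3(n) = k` is
`N ^ (η - O(1 - θ))` from below and at most `N ^ (η - (1 - θ) / 3)` from above, for every large `N`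
and uniformly in the integers `k` with `|k| ≤ (1 - θ) log N`. In particular (`k = 0`) every such
interval contains a collision.
-/

namespace Pool.Agent.Results.MP_2b4692_nt.ShortIntervals

open Filter

theorem result :
    ∃ η : ℝ,
      IsLeast {y : ℝ | ∃ x : ℝ, 0 < x ∧
        y = Real.log (1 + x) / Real.log 2 + Real.log (1 + x⁻¹ + x⁻¹ ^ 2) / Real.log 3 - 1} η ∧
      0.9815 < η ∧ η < 0.9816 ∧
      (∀ θ : ℝ, 0 < θ → θ < 1 → ∀ᶠ N : ℕ in atTop, ∀ k : ℤ,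
        |(k : ℝ)| ≤ (1 - θ) * Real.log N →
        ((((Finset.Ico N ⌈(N : ℝ) + (N : ℝ) ^ θ⌉₊).filter
          (fun n => ((Nat.digits 2 n).sum : ℤ) - ((Nat.digits 3 n).sum : ℤ) = k)).card : ℕ) : ℝ)
            ≤ (N : ℝ) ^ (η - (1 - θ) / 3)) ∧
      (∃ C : ℝ, 0 < C ∧ ∀ θ : ℝ, 1 - 1 / C < θ → θ < 1 → ∀ᶠ N : ℕ in atTop, ∀ k : ℤ,
        |(k : ℝ)| ≤ (1 - θ) * Real.log N →
        (N : ℝ) ^ (η - C * (1 - θ)) ≤
          ((((Finset.Ico N ⌈(N : ℝ) + (N : ℝ) ^ θ⌉₊).filter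
            (fun n => ((Nat.digits 2 n).sum : ℤ) - ((Nat.digits 3 n).sum : ℤ) = k)).card : ℕ) :
              ℝ)) := by
  obtain ⟨x0, hx0, hx1, hmin, h981, h982, hder⟩ := Pool.Agent.Helper47.EX.Inputs.H_min
  obtain ⟨hn1, hn2⟩ := Pool.Agent.Helper47.EX.H_min_num x0 hx0 hx1 hmin
  refine ⟨Pool.Agent.Helper47.EX.H x0, ⟨⟨x0, by linarith, rfl⟩, ?_⟩, hn1, hn2, ?_, ?_⟩
  · rintro y ⟨x, hx, rfl⟩
    exact hmin x hx
  · intro θ hθ0 hθ1
    exact Pool.Agent.Helper97.SI.upper_short x0 hx0.le hx1.le hn1 θ hθ0 hθ1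
  · obtain ⟨C, hC, h⟩ := Pool.Agent.Helper97.SI.lower_short x0 hx0 hx1 h981 (by linarith) hder
    exact ⟨C, by linarith, h⟩

end Pool.Agent.Results.MP_2b4692_nt.ShortIntervals
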